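import Mathlib
import Pool.Agent.Lib.helper31.TwistA

namespace Pool.Agent.Results.MP_d23f22_an.NoThreshold

open Real Set Filter Topology Pool.Agent.Lib.helper31.TwistA

/-- `V : 𝕋 → ℝ` is real-analytic, not identically zero, with mean zero. -/
def Admissible (V : UnitAddCircle → ℝ) : Prop :=
  AnalyticOnNhd ℝ (fun x : ℝ => V x) univ ∧ V ≠ 0 ∧ ∫ x in (0 : ℝ)..1, V x = 0

/-- The map `r' = r + l V(θ)`, `θ' = θ + r' mod 1` of the cylinder. -/
noncomputable def F (V : UnitAddCircle → ℝ) (l : ℝ) (p : UnitAddCircle × ℝ) :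
    UnitAddCircle × ℝ :=
  (p.1 + ((p.2 + l * V p.1 : ℝ) : UnitAddCircle), p.2 + l * V p.1)

/-- Its lift to the plane. -/
noncomputable def Flift (V : UnitAddCircle → ℝ) (l : ℝ) (p : ℝ × ℝ) : ℝ × ℝ :=
  (p.1 + (p.2 + l * V p.1), p.2 + l * V p.1)

/-- A homotopically non-trivial embedded circle with `F γ = γ`. -/
def IsInvCircle (V : UnitAddCircle → ℝ) (l : ℝ) (γ : Set (UnitAddCircle × ℝ)) : Prop :=
  (∃ e : C(UnitAddCircle, UnitAddCircle × ℝ),
    Function.Injective e ∧ ¬ e.Nullhomotopic ∧ range e = γ) ∧ F V l '' γ = γ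

/-- Every two-sided orbit of the lift over `γ` has rotation number `ρ`. -/
def HasRot (V : UnitAddCircle → ℝ) (l : ℝ) (γ : Set (UnitAddCircle × ℝ)) (ρ : ℝ) : Prop :=
  ∀ z : ℤ → ℝ × ℝ, (∀ n, z (n + 1) = Flift V l (z n)) →
    (((z 0).1 : UnitAddCircle), (z 0).2) ∈ γ →
    Tendsto (fun n : ℤ => ((z n).1 - (z 0).1) / n) atTop (𝓝 ρ) ∧
    Tendsto (fun n : ℤ => ((z n).1 - (z 0).1) / n) atBot (𝓝 ρ)

/-- `γ` is the graph of a real-analytic function on the circle. -/
def IsAnalyticGraph (γ : Set (UnitAddCircle × ℝ)) : Prop :=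
  ∃ R : UnitAddCircle → ℝ, AnalyticOnNhd ℝ (fun x : ℝ => R x) univ ∧ γ = {p | p.2 = R p.1}

def Diophantine (ρ : ℝ) : Prop :=
  ∃ C > (0 : ℝ), ∃ d > (2 : ℝ), ∀ m n : ℕ, 0 < m → 0 < n → C / (n : ℝ) ^ d < |ρ - (m : ℝ) / n|

/-- `Λ` is a threshold as in the question. -/
def Threshold (V : UnitAddCircle → ℝ) (ρ Λ : ℝ) : Prop :=
  (∀ l, Λ < |l| → ¬ ∃ γ, IsInvCircle V l γ ∧ HasRot V l γ ρ) ∧
  (∀ l, |l| < Λ → ∃ γ, IsInvCircle V l γ ∧ HasRot V l γ ρ ∧ IsAnalyticGraph γ)

lemma coe_add_int (x : ℝ) (k : ℤ) : ((x + k : ℝ) : UnitAddCircle) = x := by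
  rw [AddCircle.coe_add]
  have : ((k : ℝ) : UnitAddCircle) = 0 := by
    rw [AddCircle.coe_eq_zero_iff]; exact ⟨k, by simp⟩
  rw [this, add_zero]

lemma tend (ρ : ℝ) (u : ℤ → ℝ) (hu : ∀ n, |u n - n * ρ| ≤ 1) (l : Filter ℤ)
    (hl : Tendsto (fun n : ℤ => |(n : ℝ)|) l atTop) :
    Tendsto (fun n : ℤ => u n / n) l (𝓝 ρ) := by
  have h0 : Tendsto (fun n : ℤ => |(n : ℝ)|⁻¹) l (𝓝 0) := hl.inv_tendsto_atTop
  rw [tendsto_iff_norm_sub_tendsto_zero]
  refine squeeze_zero' (Eventually.of_forall fun _ => norm_nonneg _) ?_ h0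
  filter_upwards [hl.eventually_gt_atTop 0] with n hn
  have hn' : (n : ℝ) ≠ 0 := abs_pos.1 hn
  have : u n / n - ρ = (u n - n * ρ) / n := by field_simp
  rw [Real.norm_eq_abs, this, abs_div, ← one_div]
  exact div_le_div_of_nonneg_right (hu n) hn.le

lemma no_graph (V : UnitAddCircle → ℝ) (l : ℝ) (hV : Continuous fun x : ℝ => V x)
    (β : ℝ) (hβ : 2 / 5 < β)
    (hL : ∀ x y : ℝ, -β ≤ x → x ≤ y → y ≤ β →
      (2 * y + l * V y) - (2 * x + l * V x) ≤ 7 / 8 * (y - x))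
    (hlow : β ≤ (2 * β + l * V β) - (2 * (-β) + l * V (-β : ℝ)))
    (R : UnitAddCircle → ℝ) (hR : Continuous fun x : ℝ => R x)
    (hinv : ∀ p : UnitAddCircle × ℝ, p.2 = R p.1 → (F V l p).2 = R (F V l p).1) : False := by
  set g : ℝ → ℝ := fun x => x + (R x + l * V x) with hg
  set h : ℝ → ℝ := fun x => x - R x with hh
  have hhg : ∀ x, h (g x) = x := fun x => by
    have := hinv (x, R x) rfl
    simp only [F] at this
    simp only [hh, hg, AddCircle.coe_add] at this ⊢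
    rw [← this]; ring
  have hg1 : ∀ (x : ℝ) (k : ℤ), g (x + k) = g x + k := fun x k => by
    simp only [hg, coe_add_int]; ring
  have hh1 : ∀ (x : ℝ) (k : ℤ), h (x + k) = h x + k := fun x k => by
    simp only [hh, coe_add_int]; ring
  have gc : Continuous g := continuous_id.add (hR.add (continuous_const.mul hV))
  have gi : Function.Injective g := Function.LeftInverse.injective hhg
  have gm : StrictMono g := by
    rcases gc.strictMono_of_inj gi with h' | h'
    · exact h'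
    · have := h' (show (0 : ℝ) < 0 + (1 : ℤ) by simp)
      rw [hg1] at this; simp at this; linarith
  have gs : Function.Surjective g := fun y => by
    have a := hg1 0 ⌊y - g 0⌋
    have b := hg1 0 (⌊y - g 0⌋ + 1)
    have c := Int.floor_le (y - g 0)
    have d := Int.lt_floor_add_one (y - g 0)
    obtain ⟨x, -, hx⟩ := intermediate_value_Icc
      (show (0 : ℝ) + (⌊y - g 0⌋ : ℤ) ≤ 0 + ((⌊y - g 0⌋ + 1 : ℤ) : ℝ) by push_cast; linarith)
      gc.continuousOn (show y ∈ Icc _ _ from ⟨by rw [a]; linarith, by rw [b]; push_cast; linarith⟩)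
    exact ⟨x, hx⟩
  have hgh : ∀ x, g (h x) = x := fun x => by obtain ⟨y, rfl⟩ := gs x; rw [hhg]
  have hm : StrictMono h := fun a b hab => gm.lt_iff_lt.1 (by rwa [hgh, hgh])
  exact no_pair g h (fun x => 2 * x + l * V x) β (7 / 8) (by norm_num) (by norm_num) hβ gm hm hhg hgh
    hg1 hh1 (fun x => by simp only [hg, hh]; ring) hL hlow

theorem main (ρ : ℝ) (hρ : ∀ k : ℤ, ρ ≠ k) : ∃ V, Admissible V ∧
    (∃ γ, IsInvCircle V 1 γ ∧ HasRot V 1 γ ρ ∧ IsAnalyticGraph γ) ∧
    ∀ γ, IsAnalyticGraph γ → ¬ IsInvCircle V (3 / 4) γ := by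
  have hcos : cos (2 * π * ρ) < 1 := by
    refine lt_of_le_of_ne (cos_le_one _) fun h => ?_
    obtain ⟨k, hk⟩ := (cos_eq_one_iff _).1 h
    have hp := pi_pos
    exact hρ k (mul_left_cancel₀ (by positivity : (2 * π) ≠ 0) (by linarith))
  obtain ⟨s, τ, h0, h1, hτ, hK, hD⟩ := params ρ hcos
  obtain ⟨L, Lc, LK, KL⟩ := exists_L h0 h1
  have Kc := K_contDiff h0 h1
  have Km := K_strictMono h0 h1
  have L1 : ∀ (x : ℝ) (k : ℤ), L (x + k) = L x + k := fun x k => by
    apply Km.injective; rw [KL, K_add_int, KL]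
  have Lneg : ∀ x, L (-x) = -L x := fun x => by apply Km.injective; rw [KL, K_neg, KL]
  set v : ℝ → ℝ := fun x => K s (L x + ρ) + K s (L x - ρ) - 2 * x with hv
  set r : ℝ → ℝ := fun x => x - K s (L x - ρ) with hr
  have K1 : ∀ t, K s (t + 1) = K s t + 1 := fun t => by simpa using K_add_int s t 1
  have L1' : ∀ t, L (t + 1) = L t + 1 := fun t => by simpa using L1 t 1
  have vp : Function.Periodic v 1 := fun x => by
    simp only [hv, L1']
    rw [add_right_comm, K1, add_sub_right_comm (L x) 1 ρ, K1]; ring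
  have rp : Function.Periodic r 1 := fun x => by
    simp only [hr, L1']
    rw [add_sub_right_comm (L x), K1]; ring
  have vc : ContDiff ℝ ⊤ v :=
    ((Kc.comp (Lc.add contDiff_const)).add (Kc.comp (Lc.sub contDiff_const))).sub
      (contDiff_const.mul contDiff_id)
  have rc : ContDiff ℝ ⊤ r := contDiff_id.sub (Kc.comp (Lc.sub contDiff_const))
  let V : UnitAddCircle → ℝ := vp.lift
  let R : UnitAddCircle → ℝ := rp.lift
  have hV : ∀ x : ℝ, V x = v x := fun x => vp.lift_coe x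
  have hR : ∀ x : ℝ, R x = r x := fun x => rp.lift_coe x
  have hVf : (fun x : ℝ => V x) = v := funext hV
  have hRf : (fun x : ℝ => R x) = r := funext hR
  have Rc : Continuous R := by
    rw [(QuotientAddGroup.isQuotientMap_mk _).continuous_iff]
    have : Continuous fun x : ℝ => R x := hRf ▸ rc.continuous
    exact this
  -- one step along the graph
  have step : ∀ t, Flift V 1 (K s t, r (K s t)) = (K s (t + ρ), r (K s (t + ρ))) := fun t => by
    simp only [Flift, hV, hv, hr, LK, add_sub_cancel_right]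
    ext <;> simp only <;> ring
  have stepF : ∀ t, F V 1 (K s t, r (K s t)) =
      (((K s (t + ρ) : ℝ) : UnitAddCircle), r (K s (t + ρ))) := fun t => by
    have := step t
    simp only [Flift, Prod.mk.injEq] at this
    simp only [F, ← AddCircle.coe_add]
    rw [this.1, this.2]
  have none : ∀ γ, IsAnalyticGraph γ → ¬ IsInvCircle V (3 / 4) γ := by
    rintro γ ⟨R', hR', rfl⟩ ⟨-, hinv⟩
    have Lm : ∀ x y, x ≤ y → L x ≤ L y := fun x y h => Km.le_iff_le.1 (by rwa [KL, KL])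
    refine no_graph V (3 / 4) (hVf ▸ vc.continuous) (K s τ) hK ?_ ?_ R'
      (continuousOn_univ.1 hR'.continuousOn) fun p hp => ?_
    · intro x y hx hxy hy
      have a1 : -τ ≤ L x := by rw [← LK τ, ← Lneg]; exact Lm _ _ hx
      have a2 : L y ≤ τ := by rw [← LK τ]; exact Lm _ _ hy
      have := incr h0 h1 hD a1 (Lm _ _ hxy) a2
      rw [KL, KL] at this
      simp only [hV, hv]; linarith
    · simp only [hV, hv, Lneg, LK]
      have a := Km (show -τ + ρ < τ + ρ by linarith)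
      have b := Km (show -τ - ρ < τ - ρ by linarith)
      linarith
    · have : F V (3 / 4) p ∈ {p : UnitAddCircle × ℝ | p.2 = R' p.1} := hinv ▸ mem_image_of_mem _ hp
      exact this
  have circ : ∀ l, F V l '' {p | p.2 = R p.1} = {p | p.2 = R p.1} →
      IsInvCircle V l {p | p.2 = R p.1} := fun l hl => by
    refine ⟨⟨⟨fun θ => (θ, R θ), continuous_id.prodMk Rc⟩, fun a b h => congrArg Prod.fst h,
      fun h => id_not_null (h.comp_right ⟨Prod.fst, continuous_fst⟩), ?_⟩, hl⟩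
    ext ⟨a, b⟩
    simp [eq_comm]
  have an : IsAnalyticGraph {p | p.2 = R p.1} :=
    ⟨R, hRf ▸ contDiff_omega_iff_analyticOnNhd.1 rc, rfl⟩
  have inv1 : F V 1 '' {p | p.2 = R p.1} = {p | p.2 = R p.1} := by
    ext ⟨a, b⟩
    constructor
    · rintro ⟨⟨c, d⟩, hcd, h⟩
      obtain ⟨x, rfl⟩ := QuotientAddGroup.mk_surjective c
      have hd : d = r x := hcd.trans (hR x)
      rw [hd, ← KL x, stepF] at h
      rw [← h]; exact (hR _).symm
    · intro h
      obtain ⟨x, rfl⟩ := QuotientAddGroup.mk_surjective a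
      have hb : b = r x := h.trans (hR x)
      refine ⟨((K s (L x - ρ) : ℝ), r (K s (L x - ρ))), (hR _).symm, ?_⟩
      rw [stepF, sub_add_cancel, KL, hb]
  refine ⟨V, ⟨hVf ▸ contDiff_omega_iff_analyticOnNhd.1 vc, fun hz => ?_, ?_⟩,
    ⟨_, circ 1 inv1, ?_, an⟩, none⟩
  · refine none _ an (circ _ ?_)
    have : F V (3 / 4) = F V 1 := by funext p; simp [F, hz]
    rw [this, inv1]
  · rw [hVf]
    have odd : ∀ x, v (1 - x) = - v x := fun x => by
      rw [sub_eq_neg_add, vp]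
      simp only [hv, Lneg]
      rw [show -L x + ρ = -(L x - ρ) by ring, show -L x - ρ = -(L x + ρ) by ring, K_neg, K_neg]
      ring
    have := intervalIntegral.integral_comp_sub_left (a := 0) (b := 1) v 1
    simp only [odd, intervalIntegral.integral_neg, sub_self, sub_zero] at this
    linarith
  · intro z hz h0'
    have inj : Function.Injective (Flift V 1) := by
      rintro ⟨a, b⟩ ⟨c, d⟩ h
      simp only [Flift, Prod.mk.injEq] at h
      have : a = c := by linarith [h.1, h.2]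
      subst this
      have : b = d := by linarith [h.2]
      rw [this]
    set t := L (z 0).1 with ht
    have orb : ∀ n : ℤ, z n = (K s (t + n * ρ), r (K s (t + n * ρ))) := by
      intro n
      induction n using Int.induction_on with
      | zero =>
        have : (z 0).2 = r (z 0).1 := h0'.trans (hR _)
        simp only [Int.cast_zero, zero_mul, add_zero, ht, KL, ← this]
      | succ n ih => rw [hz, ih, step]; push_cast; ring_nf
      | pred n ih =>
        apply inj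
        rw [← hz, step, sub_add_cancel, ih]; push_cast; ring_nf
    have bd : ∀ n : ℤ, |((z n).1 - (z 0).1) - n * ρ| ≤ 1 := fun n => by
      rw [orb n, orb 0]
      have a := abs_le.1 (K_sub_abs s (t + n * ρ))
      have b := abs_le.1 (K_sub_abs s (t + (0 : ℤ) * ρ))
      simp only [Int.cast_zero, zero_mul, add_zero] at b ⊢
      rw [abs_le]; constructor <;> linarith
    exact ⟨tend ρ _ bd _ (tendsto_abs_atTop_atTop.comp tendsto_intCast_atTop_atTop),
      tend ρ _ bd _ (tendsto_abs_atBot_atTop.comp (tendsto_intCast_atBot_iff.2 tendsto_id))⟩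

theorem result :
    (∀ ρ : ℝ, (∀ k : ℤ, ρ ≠ k) → ∃ V, Admissible V ∧
      (∃ γ, IsInvCircle V 1 γ ∧ HasRot V 1 γ ρ ∧ IsAnalyticGraph γ) ∧
      (∀ γ, IsAnalyticGraph γ → ¬ IsInvCircle V (3 / 4) γ) ∧
      ∀ Λ, ¬ Threshold V ρ Λ) ∧
    Diophantine ((√5 - 1) / 2) ∧
    ¬ ∀ V, Admissible V → ∀ ρ, Diophantine ρ → ∃ Λ ≥ 0, Threshold V ρ Λ := by
  have A : ∀ ρ : ℝ, (∀ k : ℤ, ρ ≠ k) → ∃ V, Admissible V ∧
      (∃ γ, IsInvCircle V 1 γ ∧ HasRot V 1 γ ρ ∧ IsAnalyticGraph γ) ∧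
      (∀ γ, IsAnalyticGraph γ → ¬ IsInvCircle V (3 / 4) γ) ∧
      ∀ Λ, ¬ Threshold V ρ Λ := by
    intro ρ hρ
    obtain ⟨V, hV, ⟨γ, h1, h2, h3⟩, hn⟩ := main ρ hρ
    refine ⟨V, hV, ⟨γ, h1, h2, h3⟩, hn, fun Λ ⟨a, b⟩ => ?_⟩
    by_cases hΛ : Λ < 1
    · exact a 1 (by simpa using hΛ) ⟨γ, h1, h2⟩
    · obtain ⟨γ', c, -, d⟩ := b (3 / 4) (by rw [abs_of_pos (by norm_num)]; linarith)
      exact hn γ' d c
  have B : Diophantine ((√5 - 1) / 2) :=
    ⟨1 / 4, by norm_num, 3, by norm_num, fun m n _ hn => golden m n hn⟩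
  refine ⟨A, B, fun h => ?_⟩
  have h5a : 2 < √5 := lt_sqrt_of_sq_lt (by norm_num)
  have h5b : √5 < 3 := (sqrt_lt' (by norm_num)).2 (by norm_num)
  obtain ⟨V, hV, -, -, hn⟩ := A ((√5 - 1) / 2) fun k hk => by
    have a : (0 : ℝ) < k := by linarith
    have b : (k : ℝ) < 1 := by linarith
    have a' : (0 : ℤ) < k := by exact_mod_cast a
    have b' : k < (1 : ℤ) := by exact_mod_cast b
    omega
  obtain ⟨Λ, -, hΛ⟩ := h V hV _ B
  exact hn Λ hΛ

end Pool.Agent.Results.MP_d23f22_an.NoThreshold
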